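import Pool.Agent.Helper49_BEL.NU
import Pool.Agent.Helper61_BEL.Eke

/-!
# Squad BEL, row CNT (helper49): from the backup lemma to the counting
-/

namespace Pool.Agent.BEL.H49

open Pool.Agent.BEL

section cnt

variable {K : Type} [NormedAddCommGroup K] {al : ℝ} {m : ℕ} {S : ℝ → K → K}

theorem tm_nonneg (m k : ℕ) : 0 ≤ tm m k := by
  unfold tm
  have := one_le_pow₀ (show (1 : ℝ) ≤ 2 by norm_num) (n := m * k)
  linarith

theorem am_nonneg (V : K) (k : ℕ) : 0 ≤ am al m S V k := by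
  unfold am
  positivity

theorem am_cont (hS : ∀ t V V', 0 ≤ t → ‖S t V - S t V'‖ ≤ ‖V - V'‖) (k : ℕ) :
    Continuous fun V => am al m S V k := by
  unfold am
  have h1 : Continuous (S (tm m k)) := by
    apply LipschitzWith.continuous (K := 1)
    apply LipschitzWith.mk_one
    intro x y
    rw [dist_eq_norm, dist_eq_norm]
    exact hS _ _ _ (tm_nonneg m k)
  exact continuous_const.mul (continuous_norm.comp h1)

/-- the terms -/
noncomputable def uu (al : ℝ) (m : ℕ) (S : ℝ → K → K) (c : ℝ) (j0 : ℕ) (V : K) (j : ℕ) : ℝ :=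
  if j0 ≤ j then min (am al m S V j) c else 0

theorem uu_nonneg {c : ℝ} (hc : 0 < c) (j0 : ℕ) (V : K) (j : ℕ) : 0 ≤ uu al m S c j0 V j := by
  unfold uu
  split_ifs
  · exact le_min (am_nonneg _ _) hc.le
  · exact le_rfl

theorem uu_le {c : ℝ} (hc : 0 < c) (j0 : ℕ) (V : K) (j : ℕ) : uu al m S c j0 V j ≤ c := by
  unfold uu
  split_ifs
  · exact min_le_right _ _
  · exact hc.le

/-- the functional -/
noncomputable def JJ (al : ℝ) (m : ℕ) (S : ℝ → K → K) (c : ℝ) (j0 : ℕ) (V : K) : ℝ :=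
  ∑' j, (1 / 20 : ℝ) ^ j * uu al m S c j0 V j

theorem summ_geo : Summable fun j : ℕ => (1 / 20 : ℝ) ^ j :=
  summable_geometric_of_lt_one (by norm_num) (by norm_num)

theorem tsum_geo : ∑' j : ℕ, (1 / 20 : ℝ) ^ j = 20 / 19 := by
  rw [tsum_geometric_of_lt_one (by norm_num) (by norm_num)]
  norm_num

theorem term_nonneg {c : ℝ} (hc : 0 < c) (j0 : ℕ) (V : K) (j : ℕ) :
    0 ≤ (1 / 20 : ℝ) ^ j * uu al m S c j0 V j :=
  mul_nonneg (by positivity) (uu_nonneg hc _ _ _)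

theorem term_le {c : ℝ} (hc : 0 < c) (j0 : ℕ) (V : K) (j : ℕ) :
    (1 / 20 : ℝ) ^ j * uu al m S c j0 V j ≤ (1 / 20 : ℝ) ^ j * c :=
  mul_le_mul_of_nonneg_left (uu_le hc _ _ _) (by positivity)

theorem summ {c : ℝ} (hc : 0 < c) (j0 : ℕ) (V : K) :
    Summable fun j => (1 / 20 : ℝ) ^ j * uu al m S c j0 V j :=
  Summable.of_nonneg_of_le (term_nonneg hc j0 V) (term_le hc j0 V) (summ_geo.mul_right c)

theorem JJ_nonneg {c : ℝ} (hc : 0 < c) (j0 : ℕ) (V : K) : 0 ≤ JJ al m S c j0 V :=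
  tsum_nonneg (term_nonneg hc j0 V)

theorem JJ_le {c : ℝ} (hc : 0 < c) (j0 : ℕ) (V : K) :
    JJ al m S c j0 V ≤ 2 * c * (1 / 20) ^ j0 := by
  unfold JJ
  rw [← (summ hc j0 V).sum_add_tsum_nat_add j0]
  have h1 : ∑ i ∈ Finset.range j0, (1 / 20 : ℝ) ^ i * uu al m S c j0 V i = 0 := by
    apply Finset.sum_eq_zero
    intro i hi
    unfold uu
    rw [if_neg (not_le.2 (Finset.mem_range.1 hi)), mul_zero]
  rw [h1, zero_add]
  have h2 : Summable fun i : ℕ => (1 / 20 : ℝ) ^ (i + j0) * c :=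
    ((summable_nat_add_iff j0).2 summ_geo).mul_right c
  have h3 : ∑' i, (1 / 20 : ℝ) ^ (i + j0) * uu al m S c j0 V (i + j0) ≤
      ∑' i : ℕ, (1 / 20 : ℝ) ^ (i + j0) * c :=
    ((summable_nat_add_iff j0).2 (summ hc j0 V)).tsum_le_tsum
      (fun i => term_le hc j0 V (i + j0)) h2
  refine h3.trans ?_
  have h4 : ∑' i : ℕ, (1 / 20 : ℝ) ^ (i + j0) * c = 20 / 19 * ((1 / 20) ^ j0 * c) := by
    have h5 : (fun i : ℕ => (1 / 20 : ℝ) ^ (i + j0) * c) = fun i : ℕ =>
        (1 / 20 : ℝ) ^ i * ((1 / 20) ^ j0 * c) := by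
      funext i
      rw [pow_add]
      ring
    rw [h5, tsum_mul_right, tsum_geo]
  rw [h4]
  have h6 : 0 < (1 / 20 : ℝ) ^ j0 * c := by positivity
  nlinarith

theorem JJ_cont (hS : ∀ t V V', 0 ≤ t → ‖S t V - S t V'‖ ≤ ‖V - V'‖) {c : ℝ} (hc : 0 < c)
    (j0 : ℕ) : Continuous (JJ al m S c j0) := by
  unfold JJ
  refine continuous_tsum (u := fun j : ℕ => (1 / 20 : ℝ) ^ j * c) ?_ (summ_geo.mul_right c) ?_
  · intro j
    apply continuous_const.mul
    unfold uu
    by_cases h : j0 ≤ j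
    · simp only [h, if_true]
      exact (am_cont hS j).min continuous_const
    · simp only [h, if_false]
      exact continuous_const
  · intro j V
    rw [Real.norm_eq_abs, abs_of_nonneg (term_nonneg hc j0 V j)]
    exact term_le hc j0 V j

theorem half_sum (k : ℕ) : ∑ i ∈ Finset.range k, (1 / 2 : ℝ) ^ (k - i) ≤ 1 := by
  have h1 : ∑ i ∈ Finset.range k, (1 / 2 : ℝ) ^ (k - i) =
      ∑ i ∈ Finset.range k, (1 / 2 : ℝ) ^ (i + 1) := by
    rw [← Finset.sum_range_reflect (fun i => (1 / 2 : ℝ) ^ (i + 1)) k]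
    apply Finset.sum_congr rfl
    intro i hi
    have := Finset.mem_range.1 hi
    congr 1
    omega
  rw [h1]
  have h2 : ∑ i ∈ Finset.range k, (1 / 2 : ℝ) ^ (i + 1) =
      (1 / 2) * ∑ i ∈ Finset.range k, (1 / 2 : ℝ) ^ i := by
    rw [Finset.mul_sum]
    apply Finset.sum_congr rfl
    intro i _
    rw [pow_succ]
    ring
  rw [h2]
  have h3 := geo_le (show (0 : ℝ) ≤ 1 / 2 by norm_num) (by norm_num) k
  norm_num at h3 ⊢
  linarith

theorem two_pos_pow (x : ℝ) : 0 < (2 : ℝ) ^ x := Real.rpow_pos_of_pos (by norm_num) _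

/-- one term with a small index -/
theorem low_term (hp : Prm al m) {c : ℝ} (hc : 0 < c) {j0 k i : ℕ} (hik : i < k)
    {V D : K} {δ : ℝ} (hδ : 0 < δ)
    (h3 : ‖S (tm m i) V‖ - (1 / 32) * c * (2 : ℝ) ^ (-((m * k : ℝ) / al)) - δ ≤
      ‖S (tm m i) (V + D)‖) :
    -((1 / 32) * c * (1 / 20) ^ k * (1 / 2) ^ (k - i)) - δ * (2 : ℝ) ^ ((m * i : ℝ) / al) ≤
      (1 / 20 : ℝ) ^ i * uu al m S c j0 (V + D) i - (1 / 20 : ℝ) ^ i * uu al m S c j0 V i := by
  have hθ : 0 < (1 / 20 : ℝ) ^ i := by positivity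
  have p1 := two_pos_pow ((m * i : ℝ) / al)
  have p2 := two_pos_pow (-((m * k : ℝ) / al))
  obtain ⟨x, hx⟩ : ∃ x, x = (2 : ℝ) ^ ((m * i : ℝ) / al) *
      ((1 / 32) * c * (2 : ℝ) ^ (-((m * k : ℝ) / al)) + δ) := ⟨_, rfl⟩
  have hx0 : 0 ≤ x := by
    rw [hx]
    positivity
  have t2 : uu al m S c j0 V i - x ≤ uu al m S c j0 (V + D) i := by
    unfold uu
    by_cases hji : j0 ≤ i
    · rw [if_pos hji, if_pos hji]
      have t3 : am al m S V i - x ≤ am al m S (V + D) i := by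
        unfold am
        rw [hx, ← mul_sub]
        apply mul_le_mul_of_nonneg_left _ p1.le
        linarith
      have t4 := min_le_left (am al m S V i) c
      have t5 := min_le_right (am al m S V i) c
      exact le_min (by linarith) (by linarith)
    · rw [if_neg hji, if_neg hji]
      linarith
  have t4 : -((1 / 20 : ℝ) ^ i * x) ≤ (1 / 20 : ℝ) ^ i * uu al m S c j0 (V + D) i -
      (1 / 20 : ℝ) ^ i * uu al m S c j0 V i := by
    rw [← mul_sub, ← mul_neg]
    apply mul_le_mul_of_nonneg_left _ hθ.le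
    linarith
  refine le_trans ?_ t4
  have t5 : (1 / 20 : ℝ) ^ i * x = (1 / 32) * c * ((1 / 20 : ℝ) ^ i *
      ((2 : ℝ) ^ ((m * i : ℝ) / al) * (2 : ℝ) ^ (-((m * k : ℝ) / al)))) +
      (1 / 20 : ℝ) ^ i * (δ * (2 : ℝ) ^ ((m * i : ℝ) / al)) := by
    rw [hx]
    ring
  have t6 : (2 : ℝ) ^ ((m * i : ℝ) / al) * (2 : ℝ) ^ (-((m * k : ℝ) / al)) =
      ((2 : ℝ) ^ (-(m / al))) ^ (k - i) := by
    rw [← Real.rpow_add (by norm_num), ← Real.rpow_natCast, ← Real.rpow_mul (by norm_num)]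
    congr 1
    rw [Nat.cast_sub hik.le]
    ring
  have t7 : ((2 : ℝ) ^ (-(m / al))) ^ (k - i) ≤ ((1 / 20 : ℝ) * (1 / 2)) ^ (k - i) := by
    apply pow_le_pow_left₀ (two_pos_pow _).le
    have := hp.m3
    linarith
  have t8 : (1 / 20 : ℝ) ^ i * ((1 / 20 : ℝ) * (1 / 2)) ^ (k - i) =
      (1 / 20) ^ k * (1 / 2) ^ (k - i) := by
    rw [mul_pow, ← mul_assoc, ← pow_add, Nat.add_sub_cancel' hik.le]
  have t9 : (1 / 20 : ℝ) ^ i * ((2 : ℝ) ^ ((m * i : ℝ) / al) *
      (2 : ℝ) ^ (-((m * k : ℝ) / al))) ≤ (1 / 20) ^ k * (1 / 2) ^ (k - i) := by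
    rw [t6, ← t8]
    exact mul_le_mul_of_nonneg_left t7 hθ.le
  have t10 : (1 / 20 : ℝ) ^ i * (δ * (2 : ℝ) ^ ((m * i : ℝ) / al)) ≤
      δ * (2 : ℝ) ^ ((m * i : ℝ) / al) :=
    mul_le_of_le_one_left (by positivity) (pow_le_one₀ (by norm_num) (by norm_num))
  have t11 := mul_le_mul_of_nonneg_left t9 (show 0 ≤ (1 / 32) * c by positivity)
  rw [t5]
  have t12 : (1 / 32) * c * ((1 / 20 : ℝ) ^ k * (1 / 2) ^ (k - i)) =
    (1 / 32) * c * (1 / 20) ^ k * (1 / 2) ^ (k - i) := by ring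
  rw [t12] at t11
  linarith

/-- the terms with small indices -/
theorem pre_bound (hp : Prm al m) {c : ℝ} (hc : 0 < c) {j0 k N : ℕ} (hkN : k < N)
    {V D : K} {δ : ℝ} (hδ : 0 < δ)
    (hδ2 : δ * ∑ i ∈ Finset.range N, (2 : ℝ) ^ ((m * i : ℝ) / al) ≤ c * (1 / 20) ^ N / 8)
    (h3 : ∀ i < k, ‖S (tm m i) V‖ - (1 / 32) * c * (2 : ℝ) ^ (-((m * k : ℝ) / al)) - δ ≤
      ‖S (tm m i) (V + D)‖) :
    -(c * (1 / 20) ^ k / 32) - c * (1 / 20) ^ k / 8 ≤
      ∑ i ∈ Finset.range k, ((1 / 20 : ℝ) ^ i * uu al m S c j0 (V + D) i -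
        (1 / 20 : ℝ) ^ i * uu al m S c j0 V i) := by
  refine le_trans ?_ (Finset.sum_le_sum fun i hi =>
    low_term hp hc (j0 := j0) (Finset.mem_range.1 hi) hδ (h3 i (Finset.mem_range.1 hi)))
  rw [Finset.sum_sub_distrib, Finset.sum_neg_distrib, ← Finset.mul_sum, ← Finset.mul_sum]
  have t2 := half_sum k
  have t3 : (1 / 32) * c * (1 / 20) ^ k * ∑ i ∈ Finset.range k, (1 / 2 : ℝ) ^ (k - i) ≤
      (1 / 32) * c * (1 / 20) ^ k * 1 :=
    mul_le_mul_of_nonneg_left t2 (by positivity)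
  have t4 : δ * ∑ i ∈ Finset.range k, (2 : ℝ) ^ ((m * i : ℝ) / al) ≤
      δ * ∑ i ∈ Finset.range N, (2 : ℝ) ^ ((m * i : ℝ) / al) := by
    apply mul_le_mul_of_nonneg_left _ hδ.le
    apply Finset.sum_le_sum_of_subset_of_nonneg
    · intro i hi
      exact Finset.mem_range.2 ((Finset.mem_range.1 hi).trans hkN)
    · intro i _ _
      exact (two_pos_pow _).le
  have t5 : (1 / 20 : ℝ) ^ N ≤ (1 / 20) ^ k :=
    pow_le_pow_of_le_one (by norm_num) (by norm_num) hkN.le
  have t6 := mul_le_mul_of_nonneg_left t5 hc.le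
  linarith

/-- the tail -/
theorem tail_bound {c : ℝ} (hc : 0 < c) {j0 k : ℕ} {V D : K} :
    -(c * (1 / 20) ^ k / 19) ≤ ∑' j, ((1 / 20 : ℝ) ^ (j + (k + 1)) *
        uu al m S c j0 (V + D) (j + (k + 1)) -
      (1 / 20 : ℝ) ^ (j + (k + 1)) * uu al m S c j0 V (j + (k + 1))) := by
  have hs1 := summ (al := al) (m := m) (S := S) hc j0 (V + D)
  have hs2 := summ (al := al) (m := m) (S := S) hc j0 V
  have hs := hs1.sub hs2
  have t1 : ∑' j : ℕ, -((1 / 20 : ℝ) ^ (j + (k + 1)) * c) ≤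
      ∑' j, ((1 / 20 : ℝ) ^ (j + (k + 1)) * uu al m S c j0 (V + D) (j + (k + 1)) -
      (1 / 20 : ℝ) ^ (j + (k + 1)) * uu al m S c j0 V (j + (k + 1))) := by
    apply Summable.tsum_le_tsum
    · intro j
      have t2 := term_nonneg (al := al) (m := m) (S := S) hc j0 (V + D) (j + (k + 1))
      have t3 := term_le (al := al) (m := m) (S := S) hc j0 V (j + (k + 1))
      linarith
    · exact (((summable_nat_add_iff (k + 1)).2 summ_geo).mul_right c).neg
    · exact (summable_nat_add_iff (k + 1)).2 hs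
  have t4 : ∑' j : ℕ, -((1 / 20 : ℝ) ^ (j + (k + 1)) * c) = -(c * (1 / 20) ^ k / 19) := by
    have h5 : (fun j : ℕ => -((1 / 20 : ℝ) ^ (j + (k + 1)) * c)) = fun j : ℕ =>
        (1 / 20 : ℝ) ^ j * (-((1 / 20) ^ (k + 1) * c)) := by
      funext j
      rw [pow_add]
      ring
    rw [h5, tsum_mul_right, tsum_geo, pow_succ]
    ring
  rw [t4] at t1
  exact t1

/-- the term `k` -/
theorem mid_bound {c : ℝ} {j0 k : ℕ} (hk : j0 ≤ k) {V D : K}
    (h2 : 6 * c * (2 : ℝ) ^ (-((m * k : ℝ) / al)) ≤ ‖S (tm m k) (V + D)‖ + ‖S (tm m k) V‖)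
    (h4 : am al m S V k < c / 2) (hc : 0 < c) :
    (1 / 20 : ℝ) ^ k * (c / 2) ≤ (1 / 20 : ℝ) ^ k * uu al m S c j0 (V + D) k -
      (1 / 20 : ℝ) ^ k * uu al m S c j0 V k := by
  rw [← mul_sub]
  apply mul_le_mul_of_nonneg_left _ (by positivity)
  have t1 : uu al m S c j0 V k ≤ c / 2 := by
    unfold uu
    rw [if_pos hk]
    exact (min_le_left _ _).trans h4.le
  have t2 : uu al m S c j0 (V + D) k = c := by
    unfold uu
    rw [if_pos hk]
    apply min_eq_right
    have t3 : am al m S (V + D) k + am al m S V k ≥ 6 * c := by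
      unfold am
      rw [← mul_add]
      have t4 := mul_le_mul_of_nonneg_left h2 (two_pos_pow ((m * k : ℝ) / al)).le
      have t5 : (2 : ℝ) ^ ((m * k : ℝ) / al) * (6 * c * (2 : ℝ) ^ (-((m * k : ℝ) / al))) =
          6 * c := by
        rw [Real.rpow_neg (by norm_num)]
        have := (two_pos_pow ((m * k : ℝ) / al)).ne'
        field_simp
      rw [t5] at t4
      exact t4
    linarith
  rw [t2]
  linarith

/-- the bound of the norm of `D` -/
theorem D_bound (hp : Prm al m) {c : ℝ} (hc : 0 < c) {k : ℕ} {D : K} {e C1 : ℝ} (he : 0 < e)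
    (heC : e * C1 ≤ 1 / 16) (hC1 : 0 < C1)
    (h1 : ‖D‖ ≤ C1 * c * (2 : ℝ) ^ (-((m * k : ℝ) * (1 / al - lam al / 2)))) :
    e * ‖D‖ ≤ c * (1 / 20) ^ k / 16 := by
  have t1 : (2 : ℝ) ^ (-((m * k : ℝ) * (1 / al - lam al / 2))) ≤ (1 / 20) ^ k := by
    have t2 : (2 : ℝ) ^ (-((m * k : ℝ) * (1 / al - lam al / 2))) =
        ((2 : ℝ) ^ (-(m * (1 / al - lam al / 2)))) ^ k := by
      rw [← Real.rpow_natCast, ← Real.rpow_mul (by norm_num)]
      congr 1
      ring
    rw [t2]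
    exact pow_le_pow_left₀ (two_pos_pow _).le hp.m2 k
  calc e * ‖D‖ ≤ e * (C1 * c * (1 / 20) ^ k) := by
        apply mul_le_mul_of_nonneg_left _ he.le
        refine h1.trans ?_
        exact mul_le_mul_of_nonneg_left t1 (by positivity)
    _ = (e * C1) * (c * (1 / 20) ^ k) := by ring
    _ ≤ (1 / 16) * (c * (1 / 20) ^ k) := by
        apply mul_le_mul_of_nonneg_right heC
        positivity
    _ = _ := by ring

theorem claim (hp : Prm al m) {c : ℝ} (hc : 0 < c) {j0 k N : ℕ} (hk : j0 ≤ k) (hkN : k < N)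
    {V D : K} {δ e C1 : ℝ} (hδ : 0 < δ)
    (hδ2 : δ * ∑ i ∈ Finset.range N, (2 : ℝ) ^ ((m * i : ℝ) / al) ≤ c * (1 / 20) ^ N / 8)
    (hE : JJ al m S c j0 (V + D) ≤ JJ al m S c j0 V + e * ‖D‖) (he : 0 < e)
    (heC : e * C1 ≤ 1 / 16) (hC1 : 0 < C1)
    (h1 : ‖D‖ ≤ C1 * c * (2 : ℝ) ^ (-((m * k : ℝ) * (1 / al - lam al / 2))))
    (h2 : 6 * c * (2 : ℝ) ^ (-((m * k : ℝ) / al)) ≤ ‖S (tm m k) (V + D)‖ + ‖S (tm m k) V‖)
    (h3 : ∀ i < k, ‖S (tm m i) V‖ - (1 / 32) * c * (2 : ℝ) ^ (-((m * k : ℝ) / al)) - δ ≤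
      ‖S (tm m i) (V + D)‖)
    (h4 : am al m S V k < c / 2) : False := by
  have hs1 := summ (al := al) (m := m) (S := S) hc j0 (V + D)
  have hs2 := summ (al := al) (m := m) (S := S) hc j0 V
  have hs := hs1.sub hs2
  have hd : JJ al m S c j0 (V + D) - JJ al m S c j0 V =
      ∑' j, ((1 / 20 : ℝ) ^ j * uu al m S c j0 (V + D) j -
        (1 / 20 : ℝ) ^ j * uu al m S c j0 V j) := by
    unfold JJ
    rw [← hs1.tsum_sub hs2]
  rw [← hs.sum_add_tsum_nat_add (k + 1), Finset.sum_range_succ] at hd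
  have htail := tail_bound (al := al) (m := m) (S := S) hc (j0 := j0) (k := k) (V := V) (D := D)
  have hmid := mid_bound (al := al) (m := m) (S := S) hk h2 h4 hc
  have hpre := pre_bound (S := S) hp hc (j0 := j0) hkN hδ hδ2 h3
  have hD := D_bound hp hc he heC hC1 h1
  have hf : 0 < c * (1 / 20 : ℝ) ^ k := by positivity
  have e1 : (1 / 20 : ℝ) ^ k * (c / 2) = c * (1 / 20) ^ k / 2 := by ring
  rw [e1] at hmid
  linarith

end cnt

/-- CNT. -/
theorem cnt : CntStmt := by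
  intro K _ _ al m S C1 c1 C0 hp hC1 hc1 hC0 hS hB hub
  have hal := hp.al_pos
  have hlg := lgm_pos hp
  set p := 2 * al / (al + 2) with hpp
  have hp0 : 0 < p := by positivity
  -- choice of c
  obtain ⟨c, hc, hcc1, hcp⟩ : ∃ c : ℝ, 0 < c ∧ c ≤ c1 ∧ C1 * (c / 2) ^ p ≤ lgm al m / 8 := by
    have hx : 0 < (lgm al m / (8 * C1)) ^ (1 / p) := Real.rpow_pos_of_pos (by positivity) _
    refine ⟨min c1 (2 * (lgm al m / (8 * C1)) ^ (1 / p)), lt_min hc1 (by positivity),
      min_le_left _ _, ?_⟩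
    have h1 : min c1 (2 * (lgm al m / (8 * C1)) ^ (1 / p)) / 2 ≤
        (lgm al m / (8 * C1)) ^ (1 / p) := by
      have := min_le_right c1 (2 * (lgm al m / (8 * C1)) ^ (1 / p))
      linarith
    have h0 : 0 ≤ min c1 (2 * (lgm al m / (8 * C1)) ^ (1 / p)) / 2 := by
      have : 0 < min c1 (2 * (lgm al m / (8 * C1)) ^ (1 / p)) := lt_min hc1 (by positivity)
      linarith
    have h2 := Real.rpow_le_rpow h0 h1 hp0.le
    rw [← Real.rpow_mul (by positivity), one_div_mul_cancel hp0.ne', Real.rpow_one] at h2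
    calc C1 * _ ≤ C1 * (lgm al m / (8 * C1)) := mul_le_mul_of_nonneg_left h2 hC1.le
      _ = lgm al m / 8 := by field_simp
  have hden : 0 < lgm al m + C1 * C0 ^ p := by
    have : 0 < C0 ^ p := Real.rpow_pos_of_pos hC0 _
    positivity
  refine ⟨c / 2, 3 / 4 * lgm al m / (lgm al m + C1 * C0 ^ p), by positivity, by positivity, ?_⟩
  intro V0 ρ hρ
  -- choice of j0
  obtain ⟨j0, hj0⟩ : ∃ j0 : ℕ, 4 * c * (1 / 20) ^ j0 / ρ * C1 ≤ 1 / 16 := by
    have ht : Filter.Tendsto (fun n : ℕ => 4 * c / ρ * C1 * (1 / 20 : ℝ) ^ n) Filter.atTop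
        (nhds 0) := by
      have := (tendsto_pow_atTop_nhds_zero_of_lt_one (show (0 : ℝ) ≤ 1 / 20 by norm_num)
        (by norm_num)).const_mul (4 * c / ρ * C1)
      rwa [mul_zero] at this
    obtain ⟨n0, hn0⟩ := Filter.eventually_atTop.1
      (ht.eventually (gt_mem_nhds (show (0 : ℝ) < 1 / 16 by norm_num)))
    refine ⟨n0, ?_⟩
    have := (hn0 n0 le_rfl).le
    calc 4 * c * (1 / 20) ^ n0 / ρ * C1 = 4 * c / ρ * C1 * (1 / 20 : ℝ) ^ n0 := by ring
      _ ≤ _ := this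
  set e := 4 * c * (1 / 20) ^ j0 / ρ with he
  have he0 : 0 < e := by positivity
  obtain ⟨V, hV1, hV2⟩ := Pool.Agent.BEL.H61.ekeland (JJ al m S c j0) (JJ_cont hS hc j0)
    (2 * c * (1 / 20) ^ j0) (JJ_le hc j0) e he0 V0
  refine ⟨V, ?_, ?_⟩
  · have h1 := JJ_nonneg (al := al) (m := m) (S := S) hc j0 V0
    have h2 := JJ_le (al := al) (m := m) (S := S) hc j0 V
    have h3 : e * dist V0 V ≤ 2 * c * (1 / 20) ^ j0 := by linarith
    rw [← dist_eq_norm, dist_comm]
    by_contra h4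
    have h5 : ρ ≤ dist V0 V := not_lt.1 h4
    have h6 : e * ρ ≤ e * dist V0 V := mul_le_mul_of_nonneg_left h5 he0.le
    have h7 : e * ρ = 4 * c * (1 / 20) ^ j0 := by
      rw [he]
      field_simp
    have h8 : 0 < c * (1 / 20 : ℝ) ^ j0 := by positivity
    rw [h7] at h6
    nlinarith
  · obtain ⟨k1, hk1⟩ := hB c hc hcc1 V
    obtain ⟨k2, hk2⟩ := hub V
    set K2 := ∑ j ∈ Finset.range k2, (am al m S V j) ^ p with hK2
    refine ⟨(lgm al m * (max k1 j0 : ℕ) + C1 * K2 + 1) / (lgm al m + C1 * C0 ^ p), ?_⟩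
    intro N
    classical
    set G := (Finset.range N).filter fun k => c / 2 ≤ am al m S V k with hG
    refine ⟨G, Finset.filter_subset _ _, fun k hk => (Finset.mem_filter.1 hk).2, ?_⟩
    -- choice of delta
    obtain ⟨δ, hδ, hδ1, hδ2⟩ : ∃ δ : ℝ, 0 < δ ∧ δ ≤ 1 ∧
        δ * ∑ i ∈ Finset.range N, (2 : ℝ) ^ ((m * i : ℝ) / al) ≤ c * (1 / 20) ^ N / 8 := by
      set sg := ∑ i ∈ Finset.range N, (2 : ℝ) ^ ((m * i : ℝ) / al) with hsg
      have h0 : 0 ≤ sg := Finset.sum_nonneg fun i _ => (two_pos_pow _).le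
      refine ⟨min 1 (c * (1 / 20) ^ N / 8 / (sg + 1)), lt_min one_pos (by positivity),
        min_le_left _ _, ?_⟩
      calc min 1 (c * (1 / 20) ^ N / 8 / (sg + 1)) * sg
          ≤ (c * (1 / 20) ^ N / 8 / (sg + 1)) * (sg + 1) := by
            apply mul_le_mul (min_le_right _ _) (by linarith) h0 (by positivity)
        _ = _ := by field_simp
    obtain ⟨bad, hbN, hb1, hb2⟩ := hk1 N δ hδ
    -- every small index is bad
    have hbad : ∀ k < N, max k1 j0 ≤ k → k ∉ G → k ∈ bad := by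
      intro k hkN hk hkG
      by_contra hnb
      have h4 : am al m S V k < c / 2 := by
        by_contra h5
        exact hkG (Finset.mem_filter.2 ⟨Finset.mem_range.2 hkN, not_lt.1 h5⟩)
      obtain ⟨D, hD1, hD2, hD3⟩ := hb2 k hkN ((le_max_left _ _).trans hk) hnb
      have hE := hV2 (V + D)
      rw [dist_self_add_right] at hE
      exact claim hp hc ((le_max_right _ _).trans hk) hkN hδ hδ2 hE he0 hj0 hC1 hD1 hD2 hD3 h4
    -- counting
    have hcount : (N : ℝ) ≤ G.card + bad.card + (max k1 j0 : ℕ) := by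
      have h1 : Finset.range N ⊆ (G ∪ bad) ∪ Finset.range (max k1 j0) := by
        intro k hk
        have hkN := Finset.mem_range.1 hk
        by_cases h2 : k < max k1 j0
        · exact Finset.mem_union_right _ (Finset.mem_range.2 h2)
        · apply Finset.mem_union_left
          by_cases h3 : k ∈ G
          · exact Finset.mem_union_left _ h3
          · exact Finset.mem_union_right _ (hbad k hkN (not_lt.1 h2) h3)
      have h2 := (Finset.card_le_card h1).trans (Finset.card_union_le _ _)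
      have h3 := Finset.card_union_le G bad
      rw [Finset.card_range, Finset.card_range] at h2
      have h4 : N ≤ G.card + bad.card + max k1 j0 := by omega
      exact_mod_cast h4
    have hsum : ∑ j ∈ Finset.range N, (am al m S V j) ^ p ≤
        N * (c / 2) ^ p + G.card * C0 ^ p + K2 := by
      have h1 : ∀ j ∈ Finset.range N, (am al m S V j) ^ p ≤ (c / 2) ^ p +
          (if j ∈ G then C0 ^ p else 0) + (if j ∈ Finset.range k2 then (am al m S V j) ^ p
            else 0) := by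
        intro j hj
        have ha := am_nonneg (al := al) (m := m) (S := S) V j
        have hap : 0 ≤ (am al m S V j) ^ p := Real.rpow_nonneg ha _
        have hcp0 : 0 ≤ (c / 2) ^ p := Real.rpow_nonneg (by positivity) _
        have hC0p : 0 ≤ C0 ^ p := Real.rpow_nonneg hC0.le _
        by_cases h2 : j ∈ Finset.range k2
        · rw [if_pos h2]
          split_ifs <;> linarith
        · rw [if_neg h2]
          by_cases h3 : j ∈ G
          · rw [if_pos h3]
            have h4 := Real.rpow_le_rpow ha (hk2 j (by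
              by_contra h5
              exact h2 (Finset.mem_range.2 (not_le.1 h5)))) hp0.le
            linarith
          · rw [if_neg h3]
            have h4 : am al m S V j ≤ c / 2 := by
              by_contra h5
              exact h3 (Finset.mem_filter.2 ⟨hj, (not_le.1 h5).le⟩)
            have h5 := Real.rpow_le_rpow ha h4 hp0.le
            linarith
      refine (Finset.sum_le_sum h1).trans ?_
      rw [Finset.sum_add_distrib, Finset.sum_add_distrib, Finset.sum_const, Finset.card_range,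
        nsmul_eq_mul, ← Finset.sum_filter, ← Finset.sum_filter, Finset.sum_const, nsmul_eq_mul]
      have h2 : ((Finset.range N).filter fun j => j ∈ G) = G := by
        ext j
        rw [Finset.mem_filter]
        exact ⟨fun h => h.2, fun h => ⟨(Finset.mem_filter.1 h).1, h⟩⟩
      rw [h2]
      have h3 : ∑ j ∈ (Finset.range N).filter fun j => j ∈ Finset.range k2,
          (am al m S V j) ^ p ≤ K2 := by
        apply Finset.sum_le_sum_of_subset_of_nonneg
        · intro j hj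
          exact (Finset.mem_filter.1 hj).2
        · intro j _ _
          exact Real.rpow_nonneg (am_nonneg _ _) _
      linarith
    -- end
    have hnu : nup al m ≤ lgm al m / 8 := min_le_right _ _
    have hN0 : (0 : ℝ) ≤ N := Nat.cast_nonneg N
    have e1 : nup al m * N ≤ lgm al m / 8 * N := mul_le_mul_of_nonneg_right hnu hN0
    have e2 := mul_le_mul_of_nonneg_left hsum hC1.le
    have e3 : C1 * (c / 2) ^ p * N ≤ lgm al m / 8 * N := mul_le_mul_of_nonneg_right hcp hN0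
    have e4 := mul_le_mul_of_nonneg_left hcount hlg.le
    have e5 : 3 / 4 * lgm al m * N - (lgm al m * (max k1 j0 : ℕ) + C1 * K2 + 1) ≤
        (lgm al m + C1 * C0 ^ p) * G.card := by
      nlinarith
    rw [div_mul_eq_mul_div, ← sub_div, div_le_iff₀ hden]
    linarith

end Pool.Agent.BEL.H49
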