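import Pool.Agent.BEL.StmtsD

/-!
# Squad BEL, row LKU (helper49): the leakage tends to zero uniformly
-/

namespace Pool.Agent.BEL.H49

open Pool.Agent.BEL
open MeasureTheory Filter Topology Set
open scoped InnerProductSpace ENNReal

section lku

variable {X : Type} [MeasurableSpace X] {μ : Measure X} [IsFiniteMeasure μ] {κ : Type}
  {b : HilbertBasis κ ℝ (Lp ℝ 2 μ)}

theorem ml_sq (hm : MlpStmt) {h : X → ℝ} {M : ℝ} (hh : Measurable h) (hM : ∀ x, |h x| ≤ M)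
    (u : Lp ℝ 2 μ) :
    ‖ml μ h u‖ ^ 2 = ∫ x, (h x) ^ 2 * (u x) ^ 2 ∂μ ∧
      Integrable (fun x => (h x) ^ 2 * (u x) ^ 2) μ := by
  obtain ⟨h1, _, _, _, h5, _⟩ := hm X μ h M hh hM
  have h2 := h1 u
  constructor
  · rw [← real_inner_self_eq_norm_sq, h5]
    apply integral_congr_ae
    filter_upwards [h2] with x hx
    rw [hx]
    ring
  · have h3 := (Lp.memLp (ml μ h u)).integrable_sq
    refine h3.congr ?_
    filter_upwards [h2] with x hx
    rw [hx]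
    ring

theorem lk_le (hm : MlpStmt) (hP : ∀ (J : Finset κ) (v : Lp ℝ 2 μ), ‖v - PJ b J v‖ ≤ ‖v‖)
    {f g : X → ℝ} {M : ℝ} (hf : Measurable f) (hg : Measurable g) (hfM : ∀ x, |f x| ≤ M)
    (hgM : ∀ x, |g x| ≤ M) (J : Finset κ) (u : Lp ℝ 2 μ) :
    lk μ b J f u ≤ 2 * lk μ b J g u + 2 * ∫ x, (f x - g x) ^ 2 * (u x) ^ 2 ∂μ := by
  have hh : Measurable fun x => f x - g x := hf.sub hg
  have hhM : ∀ x, |f x - g x| ≤ M + M := fun x =>
    (abs_sub _ _).trans (add_le_add (hfM x) (hgM x))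
  have e1 := (ml_sq (μ := μ) hm hh hhM u).1
  have e2 : ml μ f u - ml μ g u = ml μ (fun x => f x - g x) u := by
    apply Lp.ext
    filter_upwards [Lp.coeFn_sub (ml μ f u) (ml μ g u), (hm X μ f M hf hfM).1 u,
      (hm X μ g M hg hgM).1 u, (hm X μ _ (M + M) hh hhM).1 u] with x h1 h2 h3 h4
    rw [h1, h4, Pi.sub_apply, h2, h3]
    ring
  rw [← e1, ← e2]
  unfold lk
  obtain ⟨p, hp⟩ : ∃ p, p = ml μ f u := ⟨_, rfl⟩
  obtain ⟨q, hq⟩ : ∃ q, q = ml μ g u := ⟨_, rfl⟩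
  rw [← hp, ← hq]
  have e3 : p - PJ b J p = (q - PJ b J q) + ((p - q) - PJ b J (p - q)) := by
    rw [map_sub]
    abel
  have e4 : ‖p - PJ b J p‖ ≤ ‖q - PJ b J q‖ + ‖p - q‖ := by
    rw [e3]
    exact (norm_add_le _ _).trans (add_le_add le_rfl (hP J _))
  have n1 := norm_nonneg (p - PJ b J p)
  have n2 := norm_nonneg (q - PJ b J q)
  have n3 := norm_nonneg (p - q)
  nlinarith [sq_nonneg (‖q - PJ b J q‖ - ‖p - q‖)]

theorem sum_lk_le (hm : MlpStmt) (hP : ∀ (J : Finset κ) (v : Lp ℝ 2 μ), ‖v - PJ b J v‖ ≤ ‖v‖)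
    {f g : X → ℝ} {M : ℝ} (hf : Measurable f) (hg : Measurable g) (hfM : ∀ x, |f x| ≤ M)
    (hgM : ∀ x, |g x| ≤ M) (J : Finset κ) {C : ℝ} (hC : 0 < C)
    (hJ : ∀ᵐ x ∂μ, ∑ j ∈ J, (b j x) ^ 2 ≤ C * J.card) :
    (1 / (J.card : ℝ)) * ∑ j ∈ J, lk μ b J f (b j) ≤
      2 * ((1 / (J.card : ℝ)) * ∑ j ∈ J, lk μ b J g (b j)) +
        2 * C * ∫ x, (f x - g x) ^ 2 ∂μ := by
  have hh : Measurable fun x => f x - g x := hf.sub hg
  have hhM : ∀ x, |f x - g x| ≤ M + M := fun x =>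
    (abs_sub _ _).trans (add_le_add (hfM x) (hgM x))
  have hI0 : 0 ≤ ∫ x, (f x - g x) ^ 2 ∂μ := integral_nonneg fun x => sq_nonneg _
  have hint2 : Integrable (fun x => (f x - g x) ^ 2) μ := by
    refine Integrable.of_bound (hh.pow_const 2).aestronglyMeasurable ((M + M) ^ 2) ?_
    refine Eventually.of_forall fun x => ?_
    rw [Real.norm_eq_abs, abs_pow]
    exact pow_le_pow_left₀ (abs_nonneg _) (hhM x) 2
  have s1 : ∑ j ∈ J, lk μ b J f (b j) ≤ 2 * ∑ j ∈ J, lk μ b J g (b j) +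
      2 * ∫ x, (f x - g x) ^ 2 * (C * J.card) ∂μ := by
    have s2 := Finset.sum_le_sum fun j (_ : j ∈ J) => lk_le (b := b) hm hP hf hg hfM hgM J (b j)
    refine s2.trans ?_
    rw [Finset.sum_add_distrib, ← Finset.mul_sum, ← Finset.mul_sum,
      ← integral_finsetSum J fun j _ => (ml_sq (μ := μ) hm hh hhM (b j)).2]
    have s3 : ∫ x, ∑ j ∈ J, (f x - g x) ^ 2 * (b j x) ^ 2 ∂μ ≤
        ∫ x, (f x - g x) ^ 2 * (C * J.card) ∂μ := by
      apply integral_mono_ae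
      · exact integrable_finsetSum J fun j _ => (ml_sq (μ := μ) hm hh hhM (b j)).2
      · exact hint2.mul_const _
      · filter_upwards [hJ] with x hx
        rw [← Finset.mul_sum]
        exact mul_le_mul_of_nonneg_left hx (sq_nonneg _)
    linarith
  rw [integral_mul_const] at s1
  by_cases h0 : (J.card : ℝ) = 0
  · rw [h0, div_zero, zero_mul, zero_mul, mul_zero, zero_add]
    positivity
  · have hpos : 0 < (J.card : ℝ) := lt_of_le_of_ne (Nat.cast_nonneg _) (Ne.symm h0)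
    have s4 := mul_le_mul_of_nonneg_left s1 (show 0 ≤ 1 / (J.card : ℝ) by positivity)
    refine s4.trans (le_of_eq ?_)
    field_simp

end lku

/-- LKU. -/
theorem lku (hg : GpkStmt) (hm : MlpStmt) (hc : CglStmt) (hj : CtjStmt) : LkuStmt := by
  intro X _ μ _ κ a al b om R W Js hcor M T ε v hM hε hv
  obtain ⟨C, hC, hC1⟩ := hcor.j1
  have hP : ∀ (J : Finset κ) (v : Lp ℝ 2 μ), ‖v - PJ b J v‖ ≤ ‖v‖ := by
    intro J v
    obtain ⟨_, _, _, _, _, _, _, h8, _⟩ := hg (Lp ℝ 2 μ) κ b om W hcor.grp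
    exact (h8 J v).1
  have hcf := (hc a al 0 hcor.a_pos hcor.al_pos le_rfl).2.2.2.2.2.2.2.2.2.2.2.2.2.2 M hM
  obtain ⟨hcf1, hcf2, hcf3, _⟩ := hcf
  have hfm : ∀ t, Measurable (cfv μ a al M (v t)) := fun t =>
    hcf1.measurable.comp (Lp.stronglyMeasurable (v t)).measurable
  have hfM : ∀ t x, |cfv μ a al M (v t) x| ≤ M := by
    intro t x
    unfold cfv
    rw [abs_of_nonneg (hcf2 _)]
    exact hcf3 _
  -- the distance is continuous
  have hD : ∀ s, Continuous fun t => ∫ x, (cf a al M (v t x) - cf a al M (v s x)) ^ 2 ∂μ := by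
    intro s
    refine hj X μ (fun p q => (cf a al M q - cf a al M p) ^ 2) (M ^ 2) ?_ ?_ (fun _ => v s) v
      continuous_const hv
    · exact ((hcf1.comp continuous_snd).sub (hcf1.comp continuous_fst)).pow 2
    · intro p q
      rw [abs_of_nonneg (sq_nonneg _)]
      have h1 := hcf2 p
      have h2 := hcf3 p
      have h3 := hcf2 q
      have h4 := hcf3 q
      have h5 : |cf a al M q - cf a al M p| ≤ M := by
        rw [abs_le]
        constructor <;> linarith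
      rw [← sq_abs]
      exact pow_le_pow_left₀ (abs_nonneg _) h5 2
  have hU : ∀ s, {t | ∫ x, (cf a al M (v t x) - cf a al M (v s x)) ^ 2 ∂μ < ε / (4 * C)} ∈ 𝓝 s := by
    intro s
    apply (hD s).continuousAt.eventually_lt continuousAt_const
    have : ∫ x, (cf a al M (v s x) - cf a al M (v s x)) ^ 2 ∂μ = 0 := by simp
    rw [this]
    positivity
  obtain ⟨F, _, hF⟩ := (isCompact_Icc (a := (0 : ℝ)) (b := T)).elim_nhds_subcover
    (fun s => {t | ∫ x, (cf a al M (v t x) - cf a al M (v s x)) ^ 2 ∂μ < ε / (4 * C)})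
    (fun s _ => hU s)
  have hev : ∀ᶠ n in atTop, ∀ s ∈ F, (1 / ((Js n).card : ℝ)) *
      ∑ j ∈ Js n, lk μ b (Js n) (cfv μ a al M (v s)) (b j) < ε / 4 := by
    rw [eventually_all_finset]
    intro s _
    exact (hcor.j3 _ (hfm s) ⟨M, hfM s⟩).eventually (gt_mem_nhds (by positivity))
  filter_upwards [hev] with n hn t ht
  obtain ⟨s, hs, hts⟩ := mem_iUnion₂.1 (hF ht)
  have h1 := sum_lk_le (b := b) hm hP (hfm t) (hfm s) (hfM t) (hfM s) (Js n) hC (hC1 n)
  have h2 := hn s hs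
  have h3 : ∫ x, (cfv μ a al M (v t) x - cfv μ a al M (v s) x) ^ 2 ∂μ < ε / (4 * C) := hts
  have h4 : 2 * C * ∫ x, (cfv μ a al M (v t) x - cfv μ a al M (v s) x) ^ 2 ∂μ ≤
      2 * C * (ε / (4 * C)) := mul_le_mul_of_nonneg_left h3.le (by positivity)
  have h5 : 2 * C * (ε / (4 * C)) = ε / 2 := by
    field_simp
    ring
  linarith

end Pool.Agent.BEL.H49
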