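import Pool.Agent.BEL.StmtsD

/-!
# Squad BEL, rows NU1 and NU2 (helper49): two sums of geometric type
-/

namespace Pool.Agent.BEL.H49

open Pool.Agent.BEL

section

variable {al : ℝ} {m : ℕ}

theorem m_pos (h : Prm al m) : 0 < (m : ℝ) := by
  have h1 := h.m1
  have h2 : 0 < lam al := by
    unfold lam
    have := h.al_pos
    positivity
  by_contra h3
  have h4 : (m : ℝ) ≤ 0 := not_lt.1 h3
  have h5 : lam al * m ≤ 0 := mul_nonpos_of_nonneg_of_nonpos h2.le h4
  linarith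

theorem lam_pos (h : 0 < al) : 0 < lam al := by
  unfold lam
  positivity

theorem lam_lt (h : 0 < al) : lam al < 1 / al := by
  unfold lam
  apply one_div_lt_one_div_of_lt h
  linarith

theorem lam_mul (h : 0 < al) : lam al * ((al + 2) / 2) = 1 / 4 := by
  unfold lam
  field_simp
  ring

theorem Gr_eq (al : ℝ) (m i : ℕ) :
    Gr al m i = Map al m / nup al m * (2 : ℝ) ^ (lam al * m * i) := by
  unfold Gr mup
  rw [← Real.rpow_natCast, ← Real.rpow_mul (by norm_num), ← Real.rpow_neg (by norm_num)]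
  congr 2
  ring

theorem mup_pos (al : ℝ) (m : ℕ) : 0 < mup al m := Real.rpow_pos_of_pos (by norm_num) _

theorem lgm_pos (h : Prm al m) : 0 < lgm al m := by
  have h1 := h.m1
  unfold lgm mup
  rw [one_div, ← Real.rpow_neg (by norm_num), neg_neg, Real.log_rpow (by norm_num)]
  have h2 : 0 < Real.log 2 := Real.log_pos (by norm_num)
  positivity

theorem nup_pos (h : Prm al m) : 0 < nup al m := by
  have h1 := lgm_pos h
  unfold nup
  apply lt_min one_pos
  positivity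

theorem A_pos (h : Prm al m) : 0 < Map al m / nup al m := by
  have h1 := nup_pos h
  have h2 := mup_pos al m
  unfold Map
  positivity

theorem L_pos {c : ℝ} (hc : 0 < c) (al : ℝ) (m k : ℕ) :
    0 < 8 * c * (2 : ℝ) ^ (-((m * k : ℝ) / al)) := by
  have := Real.rpow_pos_of_pos (show (0 : ℝ) < 2 by norm_num) (-((m * k : ℝ) / al))
  positivity

theorem geo_le {x : ℝ} (h0 : 0 ≤ x) (h1 : x < 1) (n : ℕ) :
    ∑ i ∈ Finset.range n, x ^ i ≤ 1 / (1 - x) := by
  rw [one_div, ← tsum_geometric_of_lt_one h0 h1]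
  exact (summable_geometric_of_lt_one h0 h1).sum_le_tsum _ (fun i _ => pow_nonneg h0 i)

theorem two_rpow_lt_one {x : ℝ} (h : x < 0) : (2 : ℝ) ^ x < 1 :=
  Real.rpow_lt_one_of_one_lt_of_neg (by norm_num) h

theorem nu1_term (h : Prm al m) {c : ℝ} (hc : 0 < c) {k j : ℕ} (hj : j < k) :
    (2 : ℝ) ^ (m * (j + 1)) *
      ((8 * c * (2 : ℝ) ^ (-((m * k : ℝ) / al))) ^ 2 * Gr al m (k - 1 - j)) ^ ((al + 2) / 2) =
    (8 * c) ^ al * (Map al m / nup al m) ^ ((al + 2) / 2) *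
      (8 * c * (2 : ℝ) ^ (-((m * k : ℝ) / al))) ^ 2 * ((2 : ℝ) ^ (-(3 / 4 * m : ℝ))) ^ (k - 1 - j) := by
  have hal := h.al_pos
  obtain ⟨i, hi⟩ : ∃ i, i = k - 1 - j := ⟨_, rfl⟩
  have hk : k = j + 1 + i := by omega
  rw [← hi]
  set A := Map al m / nup al m with hA
  have hApos : 0 < A := A_pos h
  have hLpos := L_pos hc al m k
  set L := 8 * c * (2 : ℝ) ^ (-((m * k : ℝ) / al)) with hL
  have e1 : (L ^ 2 * Gr al m i) ^ ((al + 2) / 2) =
      L ^ al * L ^ 2 * (A ^ ((al + 2) / 2) * (2 : ℝ) ^ ((1 / 4 : ℝ) * m * i)) := by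
    rw [Gr_eq, ← hA, Real.mul_rpow (by positivity) (by positivity),
      Real.mul_rpow hApos.le (by positivity)]
    congr 1
    · rw [← Real.rpow_natCast, ← Real.rpow_mul hLpos.le, ← Real.rpow_add hLpos]
      congr 1
      push_cast
      ring
    · rw [← Real.rpow_mul (by norm_num)]
      congr 2
      have := lam_mul hal
      calc lam al * m * i * ((al + 2) / 2) = lam al * ((al + 2) / 2) * m * i := by ring
        _ = _ := by rw [this]
  have e2 : L ^ al = (8 * c) ^ al * (2 : ℝ) ^ (-(m * k : ℝ)) := by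
    rw [hL, Real.mul_rpow (by positivity) (by positivity), ← Real.rpow_mul (by norm_num)]
    congr 2
    field_simp
  have e3 : (2 : ℝ) ^ (m * (j + 1)) = (2 : ℝ) ^ ((m : ℝ) * (j + 1)) := by
    rw [← Real.rpow_natCast]
    congr 1
    push_cast
    ring
  have e4 : ((2 : ℝ) ^ (-(3 / 4 * m : ℝ))) ^ i = (2 : ℝ) ^ ((m : ℝ) * (j + 1)) *
      (2 : ℝ) ^ (-(m * k : ℝ)) * (2 : ℝ) ^ ((1 / 4 : ℝ) * m * i) := by
    rw [← Real.rpow_natCast, ← Real.rpow_mul (by norm_num), ← Real.rpow_add (by norm_num),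
      ← Real.rpow_add (by norm_num)]
    congr 1
    rw [hk]
    push_cast
    ring
  rw [e1, e2, e3, e4]
  ring

/-- NU1. -/
theorem nu1 : Nu1Stmt := by
  intro al m h
  have hal := h.al_pos
  have hm := m_pos h
  have hA := A_pos h
  set ρ := (2 : ℝ) ^ (-(3 / 4 * m : ℝ)) with hρ
  have hρ0 : 0 < ρ := Real.rpow_pos_of_pos (by norm_num) _
  have hρ1 : ρ < 1 := two_rpow_lt_one (by linarith)
  have h1ρ : 0 < 1 - ρ := by linarith
  refine ⟨8 ^ al * (Map al m / nup al m) ^ ((al + 2) / 2) * (1 / (1 - ρ)), by positivity, ?_⟩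
  intro c k hc hk
  have hLpos := L_pos hc al m k
  rw [Finset.sum_congr rfl fun j hj => nu1_term h hc (Finset.mem_range.1 hj), ← Finset.mul_sum,
    Finset.sum_range_reflect (fun i => ρ ^ i) k]
  have h2 := geo_le hρ0.le hρ1 k
  have h3 : (8 * c) ^ al = 8 ^ al * c ^ al := Real.mul_rpow (by norm_num) hc.le
  rw [h3]
  set L := 8 * c * (2 : ℝ) ^ (-((m * k : ℝ) / al)) with hL
  calc 8 ^ al * c ^ al * (Map al m / nup al m) ^ ((al + 2) / 2) * L ^ 2 *
        ∑ i ∈ Finset.range k, ρ ^ i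
      ≤ 8 ^ al * c ^ al * (Map al m / nup al m) ^ ((al + 2) / 2) * L ^ 2 * (1 / (1 - ρ)) := by
        apply mul_le_mul_of_nonneg_left h2
        positivity
    _ = _ := by ring

theorem nu2_term (h : Prm al m) {c : ℝ} (hc : 0 < c) {k j : ℕ} (hj : j < k) (y : ℝ) :
    ((8 * c * (2 : ℝ) ^ (-((m * k : ℝ) / al))) ^ 2 * Gr al m (k - 1 - j)) ^ 2 *
      ((2 : ℝ) ^ (2 * (m * j : ℝ) / al) * y) =
    64 * c ^ 2 * (Map al m / nup al m) ^ 2 * (2 : ℝ) ^ (-(2 * m / al)) *
      (8 * c * (2 : ℝ) ^ (-((m * k : ℝ) / al))) ^ 2 *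
      (((2 : ℝ) ^ (-(2 * m * (1 / al - lam al)))) ^ (k - 1 - j) * y) := by
  have hal := h.al_pos
  obtain ⟨i, hi⟩ : ∃ i, i = k - 1 - j := ⟨_, rfl⟩
  have hk : k = j + 1 + i := by omega
  rw [← hi, Gr_eq]
  set A := Map al m / nup al m with hA
  have e0 : (8 * c * (2 : ℝ) ^ (-((m * k : ℝ) / al))) ^ 2 =
      64 * c ^ 2 * (2 : ℝ) ^ (-(2 * (m * k : ℝ) / al)) := by
    rw [mul_pow, ← Real.rpow_natCast ((2 : ℝ) ^ _), ← Real.rpow_mul (by norm_num), mul_pow]
    congr 1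
    · norm_num
    · congr 1
      push_cast
      ring
  have e1 : (2 : ℝ) ^ (-(2 * (m * k : ℝ) / al)) * ((2 : ℝ) ^ (lam al * m * i)) ^ 2 *
      (2 : ℝ) ^ (2 * (m * j : ℝ) / al) = (2 : ℝ) ^ (-(2 * m / al)) *
        ((2 : ℝ) ^ (-(2 * m * (1 / al - lam al)))) ^ i := by
    rw [← Real.rpow_natCast ((2 : ℝ) ^ (lam al * m * i)), ← Real.rpow_natCast _ i,
      ← Real.rpow_mul (by norm_num), ← Real.rpow_mul (by norm_num),
      ← Real.rpow_add (by norm_num), ← Real.rpow_add (by norm_num),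
      ← Real.rpow_add (by norm_num)]
    congr 1
    rw [hk]
    push_cast
    field_simp
    ring
  set X := (8 * c * (2 : ℝ) ^ (-((m * k : ℝ) / al))) ^ 2 with hX
  calc (X * (A * (2 : ℝ) ^ (lam al * m * i))) ^ 2 * ((2 : ℝ) ^ (2 * (m * j : ℝ) / al) * y)
      = X * X * A ^ 2 * ((2 : ℝ) ^ (lam al * m * i)) ^ 2 * (2 : ℝ) ^ (2 * (m * j : ℝ) / al) * y := by
        ring
    _ = (64 * c ^ 2 * (2 : ℝ) ^ (-(2 * (m * k : ℝ) / al))) * X * A ^ 2 *
        ((2 : ℝ) ^ (lam al * m * i)) ^ 2 * (2 : ℝ) ^ (2 * (m * j : ℝ) / al) * y := by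
        rw [← e0]
    _ = 64 * c ^ 2 * A ^ 2 * ((2 : ℝ) ^ (-(2 * (m * k : ℝ) / al)) *
        ((2 : ℝ) ^ (lam al * m * i)) ^ 2 * (2 : ℝ) ^ (2 * (m * j : ℝ) / al)) * X * y := by ring
    _ = _ := by
        rw [e1]
        ring

/-- NU2. -/
theorem nu2 : Nu2Stmt := by
  intro al m C0 h hC0
  have hal := h.al_pos
  have hm := m_pos h
  have hA := A_pos h
  have hlam := lam_lt hal
  set σ := (2 : ℝ) ^ (-(2 * m * (1 / al - lam al))) with hσ
  have hσ0 : 0 < σ := Real.rpow_pos_of_pos (by norm_num) _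
  have hσ1 : σ < 1 := by
    apply two_rpow_lt_one
    have : 0 < 2 * (m : ℝ) * (1 / al - lam al) := mul_pos (by positivity) (by linarith)
    linarith
  have h1σ : 0 < 1 - σ := by linarith
  set A := Map al m / nup al m with hA'
  have hq1 : (2 : ℝ) ^ (-(2 * m / al)) ≤ 1 := by
    apply (two_rpow_lt_one _).le
    have : 0 < 2 * (m : ℝ) / al := by positivity
    linarith
  have hq0 : 0 < (2 : ℝ) ^ (-(2 * m / al)) := Real.rpow_pos_of_pos (by norm_num) _
  refine ⟨64 * A ^ 2 * (C0 * (1 / (1 - σ)) + 1), by positivity, ?_⟩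
  intro D j1 hD
  have ht : Filter.Tendsto (fun n : ℕ => (j1 : ℝ) * D * σ ^ n) Filter.atTop (nhds 0) := by
    have := (tendsto_pow_atTop_nhds_zero_of_lt_one hσ0.le hσ1).const_mul ((j1 : ℝ) * D)
    rwa [mul_zero] at this
  obtain ⟨n0, hn0⟩ := Filter.eventually_atTop.1 (ht.eventually (gt_mem_nhds one_pos))
  refine ⟨j1 + n0 + 1, by omega, ?_⟩
  intro c k Y hc hk hY0 hYD hYC
  have hLpos := L_pos hc al m k
  rw [Finset.sum_congr rfl fun j hj => nu2_term h hc (Finset.mem_range.1 hj) (Y j),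
    ← Finset.mul_sum, ← hA', ← hσ]
  set L := 8 * c * (2 : ℝ) ^ (-((m * k : ℝ) / al)) with hL
  have key : ∑ j ∈ Finset.range k, σ ^ (k - 1 - j) * Y j ≤ C0 * (1 / (1 - σ)) + 1 := by
    have s1 : ∀ j ∈ Finset.range k, σ ^ (k - 1 - j) * Y j ≤ C0 * σ ^ (k - 1 - j) +
        (if j < j1 then D * σ ^ n0 else 0) := by
      intro j hj
      have hjk := Finset.mem_range.1 hj
      have hp : 0 < σ ^ (k - 1 - j) := pow_pos hσ0 _
      by_cases h1 : j < j1
      · rw [if_pos h1]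
        have h2 : σ ^ (k - 1 - j) ≤ σ ^ n0 := pow_le_pow_of_le_one hσ0.le hσ1.le (by omega)
        have h3 : σ ^ (k - 1 - j) * Y j ≤ σ ^ n0 * D :=
          mul_le_mul h2 (hYD j) (hY0 j) (pow_nonneg hσ0.le _)
        have h4 : 0 ≤ C0 * σ ^ (k - 1 - j) := by positivity
        linarith
      · rw [if_neg h1, add_zero, mul_comm]
        exact mul_le_mul_of_nonneg_right (hYC j (not_lt.1 h1)) hp.le
    refine (Finset.sum_le_sum s1).trans ?_
    rw [Finset.sum_add_distrib, ← Finset.mul_sum,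
      Finset.sum_range_reflect (fun i => σ ^ i) k]
    apply add_le_add
    · exact mul_le_mul_of_nonneg_left (geo_le hσ0.le hσ1 k) hC0.le
    · rw [← Finset.sum_filter, Finset.sum_const, nsmul_eq_mul]
      have h1 : ((Finset.range k).filter fun j => j < j1).card ≤ j1 := by
        calc ((Finset.range k).filter fun j => j < j1).card ≤ (Finset.range j1).card := by
              apply Finset.card_le_card
              intro j hj
              exact Finset.mem_range.2 (Finset.mem_filter.1 hj).2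
          _ = j1 := Finset.card_range _
      have h2 : (((Finset.range k).filter fun j => j < j1).card : ℝ) * (D * σ ^ n0) ≤
          (j1 : ℝ) * (D * σ ^ n0) := by
        apply mul_le_mul_of_nonneg_right
        · exact_mod_cast h1
        · positivity
      have h3 := hn0 n0 le_rfl
      calc _ ≤ (j1 : ℝ) * (D * σ ^ n0) := h2
        _ = (j1 : ℝ) * D * σ ^ n0 := by ring
        _ ≤ 1 := h3.le
  have hLc : 0 < L ^ 2 := by positivity
  have hS0 : 0 ≤ ∑ j ∈ Finset.range k, σ ^ (k - 1 - j) * Y j :=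
    Finset.sum_nonneg fun j _ => mul_nonneg (pow_nonneg hσ0.le _) (hY0 j)
  have hb : 0 ≤ C0 * (1 / (1 - σ)) + 1 := by positivity
  calc 64 * c ^ 2 * A ^ 2 * (2 : ℝ) ^ (-(2 * m / al)) * L ^ 2 *
        ∑ j ∈ Finset.range k, σ ^ (k - 1 - j) * Y j
      ≤ 64 * c ^ 2 * A ^ 2 * 1 * L ^ 2 * (C0 * (1 / (1 - σ)) + 1) := by
        apply mul_le_mul _ key hS0 (by positivity)
        apply mul_le_mul_of_nonneg_right _ hLc.le
        apply mul_le_mul_of_nonneg_left hq1
        positivity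
    _ = _ := by ring

end

end Pool.Agent.BEL.H49
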